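import Pool.Agent.helper1.SF.SpecA

/-!
Project SF (MP_d52931_gt), module TRS: the induction step in the tree.
-/

set_option autoImplicit false

namespace SF

open Pool.Agent.helper72.Sq MeasureTheory Set

lemma TRS_sinh {u : ℝ} (hu : 1 / 2 ≤ u) : 1 / 4 * Real.exp u ≤ Real.sinh u := by
  rw [Real.sinh_eq]
  have h1 : Real.exp u * Real.exp (-u) = 1 := by rw [← Real.exp_add]; simp
  have h2 : (2 : ℝ) ≤ Real.exp (2 * u) := by
    have := Real.add_one_le_exp (2 * u)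
    linarith
  have h3 : Real.exp (2 * u) = Real.exp u * Real.exp u := by rw [← Real.exp_add]; ring_nf
  have h4 : 0 < Real.exp (-u) := Real.exp_pos _
  have h5 : 2 * Real.exp (-u) ≤ Real.exp u := by
    have : 2 * Real.exp (-u) ≤ Real.exp (2 * u) * Real.exp (-u) :=
      mul_le_mul_of_nonneg_right h2 h4.le
    rw [h3] at this
    nlinarith
  linarith

lemma TRS_two_pow (k : ℕ) : (2 : ℝ) ^ k ≤ Real.exp k := by
  have h : (2 : ℝ) ≤ Real.exp 1 := by
    have := Real.add_one_le_exp (1 : ℝ)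
    linarith
  calc (2 : ℝ) ^ k ≤ (Real.exp 1) ^ k := pow_le_pow_left₀ (by norm_num) h k
    _ = Real.exp k := by rw [← Real.exp_nat_mul]; ring_nf

/-- the gap of a growing triple -/
lemma TRS_gap {Λ : ℝ} (hΛ : 40 ≤ Λ) {P : Tri} (h : Gr P) (hk : kap P ≤ 8 * Real.exp (21 * Λ / 10))
    (hx : Λ ≤ len P.1) (hy : Λ ≤ len P.2.1) (hz : Λ ≤ len P.2.2) :
    len P.1 + len P.2.1 - len P.2.2 ≤ 1536 * Real.exp (21 * Λ / 10 - (len P.1 + len P.2.1)) := by
  have h1 := h.deficiency (c := 1 / 4) (by norm_num) (TRS_sinh (by linarith))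
    (TRS_sinh (by linarith)) (TRS_sinh (by linarith))
  have h2 : kap P + 4 ≤ 12 * Real.exp (21 * Λ / 10) := by
    have : 1 ≤ Real.exp (21 * Λ / 10) := Real.one_le_exp (by linarith)
    linarith
  have h3 : 0 < Real.exp (-(len P.1 + len P.2.1)) := Real.exp_pos _
  calc len P.1 + len P.2.1 - len P.2.2
      ≤ 2 * (kap P + 4) / (1 / 4) ^ 3 * Real.exp (-(len P.1 + len P.2.1)) := h1
    _ ≤ 1536 * Real.exp (21 * Λ / 10) * Real.exp (-(len P.1 + len P.2.1)) := by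
        apply mul_le_mul_of_nonneg_right _ h3.le
        norm_num
        linarith
    _ = 1536 * Real.exp (21 * Λ / 10 - (len P.1 + len P.2.1)) := by
        rw [mul_assoc, ← Real.exp_add]; ring_nf

/-- all the gap estimates of a child -/
lemma TRS_child {Λ : ℝ} (hΛ : 40 ≤ Λ) {P : Tri} (h : Gr P)
    (hk : kap P ≤ 8 * Real.exp (21 * Λ / 10)) (n : ℕ) {m : ℝ} (hm : 12 / 5 ≤ m)
    (hmn : 3 / 2 + 9 / 10 * (n : ℝ) ≤ m)
    (hx : 1 ≤ len P.1 / Λ) (hy : 1 ≤ len P.2.1 / Λ) (hxy : 1 + m ≤ len P.1 / Λ + len P.2.1 / Λ)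
    (hz : m ≤ len P.2.2 / Λ) :
    3 / 2 + 9 / 10 * ((n + 1 : ℕ) : ℝ) ≤ len P.2.2 / Λ ∧
    len P.1 / Λ + len P.2.1 / Λ - len P.2.2 / Λ ≤ Real.exp (-(Λ * (len P.2.2 / Λ)) / 10) ∧
    10 * (len P.1 / Λ + len P.2.1 / Λ - len P.2.2 / Λ) ≤ (1 / 4) ^ (n + 1 + 1) := by
  have hΛ0 : 0 < Λ := by linarith
  rw [le_div_iff₀ hΛ0] at hx hy
  rw [← add_div, le_div_iff₀ hΛ0] at hxy
  have hz' := hz
  rw [le_div_iff₀ hΛ0] at hz
  have hz1 : Λ ≤ len P.2.2 := by nlinarith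
  have hg := TRS_gap hΛ h hk (by linarith) (by linarith) hz1
  have hle := h.len_z_le
  set S := len P.1 + len P.2.1 with hS
  have e0 : len P.1 / Λ + len P.2.1 / Λ - len P.2.2 / Λ = (S - len P.2.2) / Λ := by
    rw [hS]; ring
  have hg1 : len P.1 / Λ + len P.2.1 / Λ - len P.2.2 / Λ ≤ 1536 * Real.exp (21 * Λ / 10 - S) := by
    rw [e0, div_le_iff₀ hΛ0]
    have : 0 < Real.exp (21 * Λ / 10 - S) := Real.exp_pos _
    nlinarith
  -- (5)
  have h5 : 10 * (len P.1 / Λ + len P.2.1 / Λ - len P.2.2 / Λ) ≤ (1 / 4) ^ (n + 1 + 1) := by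
    have hm2 : 39 / 20 + 9 / 20 * (n : ℝ) ≤ m := by linarith
    have hn : (0 : ℝ) ≤ n := Nat.cast_nonneg n
    have hexp : 21 * Λ / 10 - S ≤ -(((18 + 2 * n : ℕ) : ℝ)) := by
      push_cast
      have : (1 + m) * Λ ≤ S := hxy
      have h1 : (1 + (39 / 20 + 9 / 20 * (n : ℝ))) * Λ ≤ S := by nlinarith
      nlinarith
    have h1 : Real.exp (21 * Λ / 10 - S) ≤ Real.exp (-(((18 + 2 * n : ℕ) : ℝ))) :=
      Real.exp_le_exp.2 hexp
    have h2 : Real.exp (-(((18 + 2 * n : ℕ) : ℝ))) ≤ ((2 : ℝ) ^ (18 + 2 * n))⁻¹ := by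
      rw [Real.exp_neg]
      exact inv_anti₀ (by positivity) (TRS_two_pow _)
    have h3 : ((2 : ℝ) ^ (18 + 2 * n))⁻¹ = (1 / 4) ^ (n + 1 + 1) / 2 ^ 14 := by
      rw [show 18 + 2 * n = 14 + 2 * (n + 1 + 1) by ring, pow_add, pow_mul, mul_inv]
      rw [div_pow, one_pow]
      norm_num
      ring
    have h4 : (0 : ℝ) < (1 / 4) ^ (n + 1 + 1) := by positivity
    calc 10 * (len P.1 / Λ + len P.2.1 / Λ - len P.2.2 / Λ)
        ≤ 10 * (1536 * ((1 / 4) ^ (n + 1 + 1) / 2 ^ 14)) := by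
          rw [← h3]; nlinarith
      _ ≤ (1 / 4) ^ (n + 1 + 1) := by
          norm_num at h4 ⊢
          nlinarith
  refine ⟨?_, ?_, h5⟩
  · have h6 : ((1 : ℝ) / 4) ^ (n + 1 + 1) ≤ 1 := pow_le_one₀ (by norm_num) (by norm_num)
    have h7 : 1 + m ≤ len P.1 / Λ + len P.2.1 / Λ := by
      rw [← add_div, le_div_iff₀ hΛ0]; exact hxy
    push_cast
    linarith
  · refine hg1.trans ?_
    rw [mul_div_cancel₀ _ hΛ0.ne']
    have h8 : (1536 : ℝ) ≤ Real.exp (11 : ℕ) := by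
      refine le_trans ?_ (TRS_two_pow 11)
      norm_num
    calc 1536 * Real.exp (21 * Λ / 10 - S)
        ≤ Real.exp (11 : ℕ) * Real.exp (21 * Λ / 10 - S) :=
          mul_le_mul_of_nonneg_right h8 (Real.exp_pos _).le
      _ = Real.exp ((11 : ℕ) + (21 * Λ / 10 - S)) := by rw [← Real.exp_add]
      _ ≤ Real.exp (-len P.2.2 / 10) := by
          apply Real.exp_le_exp.2
          push_cast
          have : (1 + 12 / 5) * Λ ≤ S := by nlinarith
          linarith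

theorem TRS : TRS_stmt := by
  refine ⟨40, by norm_num, fun Λ hΛ n Q hk hQ => ?_⟩
  obtain ⟨hG, hNL, hn, -, hgap, hNR⟩ := hQ
  obtain ⟨ha, hb, -, hm, hmab⟩ := hNL
  have hΛ0 : 0 < Λ := by linarith
  have ha1 : 1 ≤ len Q.1 / Λ := by rcases ha with h | h <;> linarith
  have hb1 : 1 ≤ len Q.2.1 / Λ := by rcases hb with h | h <;> linarith
  have hqp : (0 : ℝ) < (1 / 4) ^ (n + 1) := by positivity
  have hq2 : ((1 : ℝ) / 4) ^ (n + 1 + 1) = (1 / 4) ^ (n + 1) / 4 := by rw [pow_succ]; ring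
  constructor
  · have hG' := hG.L
    have hzw : len (Lm Q).2.1 ≤ len (Lm Q).2.2 := len_mono hG'.y2.le hG'.yz
    have hz' : len Q.2.2 / Λ ≤ len (Lm Q).2.2 / Λ := div_le_div_of_nonneg_right hzw hΛ0.le
    obtain ⟨c1, c2, c3⟩ := TRS_child hΛ hG' (by rw [kap_Lm]; exact hk) n hm hn ha1
      (show 1 ≤ len Q.2.2 / Λ by linarith)
      (show 1 + len Q.2.2 / Λ ≤ len Q.1 / Λ + len Q.2.2 / Λ by linarith) hz'
    refine ⟨hG', ⟨ha, Or.inr ?_, ?_, ?_, ?_⟩, c1, c2, c3, ?_⟩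
    · show 3 / 2 ≤ len Q.2.2 / Λ
      linarith
    · rintro ⟨-, h⟩
      have h' : len Q.2.2 / Λ = 1 := h
      linarith
    · linarith
    · have := hG'.len_z_le
      rw [← add_div]
      exact div_le_div_of_nonneg_right this hΛ0.le
    · intro p1 p2
      by_contra hcon
      push Not at hcon
      obtain ⟨k1, k2⟩ := hcon
      have k1' : |(p1 : ℝ) - 5 * (len Q.2.2 / Λ)| < (1 / 4) ^ (n + 1 + 1) := k1
      have k2' : |(p2 : ℝ) - 5 * (len Q.1 / Λ)| < (1 / 4) ^ (n + 1 + 1) := k2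
      rw [hq2, abs_lt] at k1' k2'
      have := hNR (p1 - p2) p2
      rcases this with h | h
      · push_cast at h
        have : |(p1 : ℝ) - p2 - 5 * (len Q.2.1 / Λ)| < (1 / 4) ^ (n + 1) := by
          rw [abs_lt]
          constructor <;> linarith
        linarith
      · have : |(p2 : ℝ) - 5 * (len Q.1 / Λ)| < (1 / 4) ^ (n + 1) := by
          rw [abs_lt]
          constructor <;> linarith
        linarith
  · have hG' := hG.R
    have hzw : len (Rm Q).1 ≤ len (Rm Q).2.2 := len_mono hG'.x2.le hG'.xz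
    have hz' : len Q.2.2 / Λ ≤ len (Rm Q).2.2 / Λ := div_le_div_of_nonneg_right hzw hΛ0.le
    obtain ⟨c1, c2, c3⟩ := TRS_child hΛ hG' (by rw [kap_Rm]; exact hk) n hm hn
      (show 1 ≤ len Q.2.2 / Λ by linarith) hb1
      (show 1 + len Q.2.2 / Λ ≤ len Q.2.2 / Λ + len Q.2.1 / Λ by linarith) hz'
    refine ⟨hG', ⟨Or.inr ?_, hb, ?_, ?_, ?_⟩, c1, c2, c3, ?_⟩
    · show 3 / 2 ≤ len Q.2.2 / Λ
      linarith
    · rintro ⟨h, -⟩
      have h' : len Q.2.2 / Λ = 1 := h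
      linarith
    · linarith
    · have := hG'.len_z_le
      rw [← add_div]
      exact div_le_div_of_nonneg_right this hΛ0.le
    · intro p1 p2
      by_contra hcon
      push Not at hcon
      obtain ⟨k1, k2⟩ := hcon
      have k1' : |(p1 : ℝ) - 5 * (len Q.2.1 / Λ)| < (1 / 4) ^ (n + 1 + 1) := k1
      have k2' : |(p2 : ℝ) - 5 * (len Q.2.2 / Λ)| < (1 / 4) ^ (n + 1 + 1) := k2
      rw [hq2, abs_lt] at k1' k2'
      have := hNR p1 (p2 - p1)
      rcases this with h | h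
      · have : |(p1 : ℝ) - 5 * (len Q.2.1 / Λ)| < (1 / 4) ^ (n + 1) := by
          rw [abs_lt]
          constructor <;> linarith
        linarith
      · push_cast at h
        have : |(p2 : ℝ) - p1 - 5 * (len Q.1 / Λ)| < (1 / 4) ^ (n + 1) := by
          rw [abs_lt]
          constructor <;> linarith
        linarith

end SF
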